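import Mathlib

/-!
Eternal domination (one guard moves per attack) and clique covers of finite graphs.
-/

set_option autoImplicit false

namespace Pool.Agent.Q64.EP

open SimpleGraph

/-- `F` is an eternal family of `k`-element dominating sets of `G`: it is nonempty, its members are
dominating sets with `k` elements, and for every member `D` and every vertex `v` outside `D` some
`u` in `D` adjacent to `v` can be replaced by `v` such that the result is again in `F`. -/
structure IsEternalFamily {V : Type} [DecidableEq V] (G : SimpleGraph V) (k : ℕ)
    (F : Set (Finset V)) : Prop where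
  nonempty : F.Nonempty
  card : ∀ D ∈ F, D.card = k
  dominating : ∀ D ∈ F, ∀ v : V, v ∈ D ∨ ∃ u ∈ D, G.Adj u v
  answer : ∀ D ∈ F, ∀ v : V, v ∉ D → ∃ u ∈ D, G.Adj u v ∧ insert v (D.erase u) ∈ F

/-- The eternal domination number `γ^∞ (G)`: the least `k` such that there is an eternal family of
`k`-element dominating sets. -/
noncomputable def eternalDomination {V : Type} [DecidableEq V] (G : SimpleGraph V) : ℕ :=
  sInf {k | ∃ F, IsEternalFamily G k F}

/-- The clique cover number `θ (G)`: the least `k` such that the vertices can be partitioned into
`k` cliques. -/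
noncomputable def cliqueCover {V : Type} (G : SimpleGraph V) : ℕ :=
  sInf {k | ∃ c : V → Fin k, ∀ u v, c u = c v → u ≠ v → G.Adj u v}

/-- The prism `G □ K_2`. -/
abbrev prism {V : Type} (G : SimpleGraph V) : SimpleGraph (V × Fin 2) :=
  G □ (⊤ : SimpleGraph (Fin 2))

end Pool.Agent.Q64.EP
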