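import Mathlib
import Pool.Agent.Q64.EP.Defs
import Pool.Agent.W145.ED.Graph

set_option autoImplicit false

namespace Pool.Agent.Q64.EP

open SimpleGraph

variable {V A B W : Type} [DecidableEq V] [DecidableEq A] [DecidableEq B] [DecidableEq W]

theorem IsEternalFamily.of {G : SimpleGraph V} {k : ℕ} {F : Set (Finset V)} (h1 : F.Nonempty)
    (h2 : ∀ D ∈ F, D.card = k)
    (h3 : ∀ D ∈ F, ∀ v : V, v ∉ D → ∃ u ∈ D, G.Adj u v ∧ insert v (D.erase u) ∈ F) :
    IsEternalFamily G k F :=
  ⟨h1, h2, fun D hD v => by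
    by_cases hv : v ∈ D
    · exact Or.inl hv
    · obtain ⟨u, hu, ha, -⟩ := h3 D hD v hv
      exact Or.inr ⟨u, hu, ha⟩, h3⟩

/-- an independent set has at most `k` elements -/
theorem indep_le {G : SimpleGraph V} {k : ℕ} {F : Set (Finset V)} (h : IsEternalFamily G k F)
    (S : Finset V) (hS : ∀ u ∈ S, ∀ v ∈ S, ¬ G.Adj u v) : S.card ≤ k := by
  have key : ∀ S : Finset V, (∀ u ∈ S, ∀ v ∈ S, ¬ G.Adj u v) → ∃ D ∈ F, S ⊆ D := by
    intro S
    induction S using Finset.induction_on with
    | empty =>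
      intro _
      obtain ⟨D, hD⟩ := h.nonempty
      exact ⟨D, hD, Finset.empty_subset _⟩
    | insert v S hv ih =>
      intro hS
      obtain ⟨D, hD, hSD⟩ := ih fun a ha b hb =>
        hS a (Finset.mem_insert_of_mem ha) b (Finset.mem_insert_of_mem hb)
      by_cases hvD : v ∈ D
      · exact ⟨D, hD, Finset.insert_subset hvD hSD⟩
      · obtain ⟨u, hu, ha, hD'⟩ := h.answer D hD v hvD
        refine ⟨_, hD', ?_⟩
        intro x hx
        rcases Finset.mem_insert.mp hx with rfl | hxS
        · exact Finset.mem_insert_self _ _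
        · refine Finset.mem_insert_of_mem (Finset.mem_erase.mpr ⟨?_, hSD hxS⟩)
          rintro rfl
          exact hS x (Finset.mem_insert_of_mem hxS) v (Finset.mem_insert_self _ _) ha
  obtain ⟨D, hD, hSD⟩ := key S hS
  exact (Finset.card_le_card hSD).trans (h.card D hD).le

/-- the transversals of a partition into cliques form an eternal family -/
theorem family_of_cover {ι : Type} [Fintype ι] [DecidableEq ι] (G : SimpleGraph V) (c : V → ι)
    (s : ι → V) (hs : ∀ i, c (s i) = i) (hc : ∀ u v, c u = c v → u ≠ v → G.Adj u v) :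
    ∃ F, IsEternalFamily G (Fintype.card ι) F := by
  classical
  refine ⟨{D | ∃ t : ι → V, (∀ i, c (t i) = i) ∧ D = Finset.univ.image t}, .of ?_ ?_ ?_⟩
  · exact ⟨_, s, hs, rfl⟩
  · rintro D ⟨t, ht, rfl⟩
    rw [Finset.card_image_of_injective _ (fun i j h => by rw [← ht i, ← ht j, h]), Finset.card_univ]
  · rintro D ⟨t, ht, rfl⟩ v hv
    have hne : t (c v) ≠ v := fun h => hv (Finset.mem_image.mpr ⟨c v, Finset.mem_univ _, h⟩)
    refine ⟨t (c v), Finset.mem_image_of_mem _ (Finset.mem_univ _), hc _ _ (ht _) hne,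
      Function.update t (c v) v, ?_, ?_⟩
    · intro i
      by_cases hi : i = c v
      · subst hi; rw [Function.update_self]
      · rw [Function.update_of_ne hi, ht]
    · ext x
      simp only [Finset.mem_insert, Finset.mem_erase, Finset.mem_image, Finset.mem_univ, true_and]
      constructor
      · rintro (rfl | ⟨hx, i, rfl⟩)
        · exact ⟨c x, Function.update_self _ _ _⟩
        · refine ⟨i, Function.update_of_ne ?_ _ _⟩
          rintro rfl
          exact hx rfl
      · rintro ⟨i, rfl⟩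
        by_cases hi : i = c v
        · subst hi; exact Or.inl (Function.update_self _ _ _)
        · rw [Function.update_of_ne hi]
          refine Or.inr ⟨?_, i, rfl⟩
          intro h
          apply hi
          rw [← ht i, h, ht]

/-- the guards of two parts of a graph -/
theorem glue {GA : SimpleGraph A} {GB : SimpleGraph B} (G : SimpleGraph W) (e : A ⊕ B ≃ W)
    (hA : ∀ a a', GA.Adj a a' → G.Adj (e (.inl a)) (e (.inl a')))
    (hB : ∀ b b', GB.Adj b b' → G.Adj (e (.inr b)) (e (.inr b'))) {k l : ℕ}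
    (h : ∃ F, IsEternalFamily GA k F) (h' : ∃ F, IsEternalFamily GB l F) :
    ∃ F, IsEternalFamily G (k + l) F := by
  obtain ⟨F, h⟩ := h
  obtain ⟨F', h'⟩ := h'
  refine ⟨{D | ∃ X ∈ F, ∃ Y ∈ F', D = (X.disjSum Y).map e.toEmbedding}, .of ?_ ?_ ?_⟩
  · obtain ⟨X, hX⟩ := h.nonempty
    obtain ⟨Y, hY⟩ := h'.nonempty
    exact ⟨_, X, hX, Y, hY, rfl⟩
  · rintro D ⟨X, hX, Y, hY, rfl⟩
    rw [Finset.card_map, Finset.card_disjSum, h.card X hX, h'.card Y hY]
  · rintro D ⟨X, hX, Y, hY, rfl⟩ v hv
    obtain ⟨w, rfl⟩ := e.surjective v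
    have hv' : w ∉ X.disjSum Y := fun hw =>
      hv (Finset.mem_map.mpr ⟨w, hw, rfl⟩)
    rcases w with a | b
    · have ha : a ∉ X := fun ha => hv' (Finset.inl_mem_disjSum.mpr ha)
      obtain ⟨u, hu, hadj, hm⟩ := h.answer X hX a ha
      refine ⟨e (.inl u), Finset.mem_map.mpr ⟨.inl u, Finset.inl_mem_disjSum.mpr hu, rfl⟩,
        hA _ _ hadj, _, hm, Y, hY, ?_⟩
      ext x
      obtain ⟨x, rfl⟩ := e.surjective x
      rcases x with x | x <;>
        simp [Finset.mem_insert, Finset.mem_erase, Finset.mem_map]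
    · have hb : b ∉ Y := fun hb => hv' (Finset.inr_mem_disjSum.mpr hb)
      obtain ⟨u, hu, hadj, hm⟩ := h'.answer Y hY b hb
      refine ⟨e (.inr u), Finset.mem_map.mpr ⟨.inr u, Finset.inr_mem_disjSum.mpr hu, rfl⟩,
        hB _ _ hadj, X, hX, _, hm, ?_⟩
      ext x
      obtain ⟨x, rfl⟩ := e.surjective x
      rcases x with x | x <;>
        simp [Finset.mem_insert, Finset.mem_erase, Finset.mem_map]

/-- a triangle-free graph cannot be covered by less than `|V| / 2` cliques -/
theorem card_le_of_cover [Fintype W] {G : SimpleGraph W} (hG : G.CliqueFree 3) {k : ℕ}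
    (c : W → Fin k) (hc : ∀ u v, c u = c v → u ≠ v → G.Adj u v) : Fintype.card W ≤ 2 * k := by
  classical
  have h1 : ∀ i : Fin k, (Finset.univ.filter fun w => c w = i).card ≤ 2 := by
    intro i
    by_contra hcon
    push Not at hcon
    obtain ⟨x, y, z, hx, hy, hz, hxy, hxz, hyz⟩ := Finset.two_lt_card_iff.mp hcon
    rw [Finset.mem_filter] at hx hy hz
    refine hG {x, y, z} ?_
    rw [SimpleGraph.is3Clique_iff]
    exact ⟨x, y, z, hc _ _ (hx.2.trans hy.2.symm) hxy, hc _ _ (hx.2.trans hz.2.symm) hxz,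
      hc _ _ (hy.2.trans hz.2.symm) hyz, rfl⟩
  calc Fintype.card W = (Finset.univ : Finset W).card := Finset.card_univ.symm
    _ = ∑ i : Fin k, (Finset.univ.filter fun w => c w = i).card :=
        Finset.card_eq_sum_card_fiberwise fun _ _ => Finset.mem_univ _
    _ ≤ ∑ _i : Fin k, 2 := Finset.sum_le_sum fun i _ => h1 i
    _ = 2 * k := by simp [mul_comm]

/-- the corona of a graph: a pendant vertex is attached to each vertex -/
def corona (H : SimpleGraph V) : SimpleGraph (V ⊕ V) where
  Adj
    | .inl u, .inl v => H.Adj u v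
    | .inl u, .inr v => u = v
    | .inr u, .inl v => u = v
    | .inr _, .inr _ => False
  symm := ⟨by
    rintro (a | a) (b | b) h
    · exact SimpleGraph.Adj.symm (G := H) h
    · exact Eq.symm h
    · exact Eq.symm h
    · exact h⟩
  loopless := ⟨by
    rintro (a | a) h
    · exact H.irrefl h
    · exact h⟩

theorem corona_cliqueFree {H : SimpleGraph V} (hH : H.CliqueFree 3) : (corona H).CliqueFree 3 := by
  intro s hs
  rw [SimpleGraph.is3Clique_iff] at hs
  obtain ⟨a, b, c, hab, hac, hbc, -⟩ := hs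
  rcases a with a | a <;> rcases b with b | b <;> rcases c with c | c
  · exact hH {a, b, c} (SimpleGraph.is3Clique_iff.mpr ⟨a, b, c, hab, hac, hbc, rfl⟩)
  · have h1 : a = c := hac
    have h2 : b = c := hbc
    subst h1 h2
    exact H.irrefl (show H.Adj _ _ from hab)
  · have h1 : a = b := hab
    have h2 : b = c := hbc
    subst h1 h2
    exact H.irrefl (show H.Adj _ _ from hac)
  · exact hbc
  · have h1 : a = b := hab
    have h2 : a = c := hac
    subst h1 h2
    exact H.irrefl (show H.Adj _ _ from hbc)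
  · exact hac
  · exact hab
  · exact hab

theorem prism_cliqueFree {G : SimpleGraph V} (hG : G.CliqueFree 3) : (prism G).CliqueFree 3 := by
  intro s hs
  rw [SimpleGraph.is3Clique_iff] at hs
  obtain ⟨⟨a, i⟩, ⟨b, j⟩, ⟨c, k⟩, hab, hac, hbc, -⟩ := hs
  rw [SimpleGraph.boxProd_adj] at hab hac hbc
  simp only [SimpleGraph.top_adj] at hab hac hbc
  rcases hab with ⟨h1, h2⟩ | ⟨h1, h2⟩ <;> rcases hac with ⟨h3, h4⟩ | ⟨h3, h4⟩ <;>
    rcases hbc with ⟨h5, h6⟩ | ⟨h5, h6⟩
  · exact hG {a, b, c} (SimpleGraph.is3Clique_iff.mpr ⟨a, b, c, h1, h3, h5, rfl⟩)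
  · exact h5 (h2.symm.trans h4)
  · exact h3 (h2.trans h6)
  · subst h4 h6; exact G.irrefl h1
  · exact h1 (h4.trans h6.symm)
  · subst h2 h6; exact G.irrefl h3
  · subst h2 h4; exact G.irrefl h5
  · omega

/-- The corona of a triangle-free graph with more than `2 k` vertices, which can be defended by `k`
guards. -/
theorem corona_works [Fintype V] {H : SimpleGraph V} (hH : H.CliqueFree 3) {k : ℕ}
    (hF : ∃ F, IsEternalFamily H k F) (hk : 2 * k < Fintype.card V) :
    cliqueCover (corona H) = eternalDomination (corona H) ∧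
      eternalDomination (prism (corona H)) < cliqueCover (prism (corona H)) := by
  classical
  have hcov : ∃ c : V ⊕ V → Fin (Fintype.card V),
      ∀ u v, c u = c v → u ≠ v → (corona H).Adj u v := by
    refine ⟨fun x => Fintype.equivFin V (x.elim id id), ?_⟩
    rintro (u | u) (v | v) h1 h2
    · have h3 : u = v := (Fintype.equivFin V).injective h1
      exact absurd (congrArg Sum.inl h3) h2
    · exact (Fintype.equivFin V).injective h1
    · exact (Fintype.equivFin V).injective h1
    · have h3 : u = v := (Fintype.equivFin V).injective h1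
      exact absurd (congrArg Sum.inr h3) h2
  have hfam : ∃ F, IsEternalFamily (corona H) (Fintype.card V) F := by
    refine family_of_cover (corona H) (fun x => x.elim id id) Sum.inl (fun _ => rfl) ?_
    rintro (u | u) (v | v) h1 h2
    · exact absurd (congrArg Sum.inl h1) h2
    · exact h1
    · exact h1
    · exact absurd (congrArg Sum.inr h1) h2
  have hind : ∀ u ∈ (Finset.univ : Finset V).map Function.Embedding.inr,
      ∀ v ∈ (Finset.univ : Finset V).map Function.Embedding.inr, ¬ (corona H).Adj u v := by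
    intro u hu v hv
    obtain ⟨a, -, rfl⟩ := Finset.mem_map.mp hu
    obtain ⟨b, -, rfl⟩ := Finset.mem_map.mp hv
    exact id
  have hEC : eternalDomination (corona H) = Fintype.card V := by
    refine le_antisymm (Nat.sInf_le hfam) ?_
    refine le_csInf ⟨_, hfam⟩ ?_
    rintro l ⟨F, hl⟩
    have h := indep_le hl _ hind
    rwa [Finset.card_map, Finset.card_univ] at h
  have hCC : cliqueCover (corona H) = Fintype.card V := by
    refine le_antisymm (Nat.sInf_le hcov) ?_
    refine le_csInf ⟨_, hcov⟩ ?_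
    rintro l ⟨c, hc⟩
    have hinj : Function.Injective fun v : V => c (Sum.inr v) := by
      intro u v huv
      by_contra hne
      exact hc _ _ huv (fun h => hne (Sum.inr.inj h))
    have := Fintype.card_le_of_injective _ hinj
    rwa [Fintype.card_fin] at this
  refine ⟨hCC.trans hEC.symm, ?_⟩
  -- the guards on the prism
  have h2 : ∃ F, IsEternalFamily (H ⊕g H) (k + k) F :=
    glue (H ⊕g H) (Equiv.refl _) (fun a a' h => h) (fun b b' h => h) hF hF
  let M : SimpleGraph (V × Fin 2) := (⊥ : SimpleGraph V) □ (⊤ : SimpleGraph (Fin 2))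
  have h3 : ∃ F, IsEternalFamily M (Fintype.card V) F := by
    refine family_of_cover M Prod.fst (fun v => (v, 0)) (fun _ => rfl) ?_
    rintro ⟨u, i⟩ ⟨v, j⟩ h1 h4
    rw [SimpleGraph.boxProd_adj]
    refine Or.inr ⟨?_, h1⟩
    rw [SimpleGraph.top_adj]
    intro h
    exact h4 (Prod.ext h1 h)
  let e : (V ⊕ V) ⊕ (V × Fin 2) ≃ (V ⊕ V) × Fin 2 :=
    { toFun := fun x => match x with
        | .inl (.inl v) => (.inl v, 0)
        | .inl (.inr v) => (.inl v, 1)
        | .inr (v, i) => (.inr v, i)
      invFun := fun x => match x with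
        | (.inl v, i) => if i = 0 then .inl (.inl v) else .inl (.inr v)
        | (.inr v, i) => .inr (v, i)
      left_inv := by
        rintro ((v | v) | ⟨v, i⟩)
        · rfl
        · rfl
        · rfl
      right_inv := by
        rintro ⟨v | v, i⟩
        · fin_cases i <;> rfl
        · rfl }
  have h4 : ∃ F, IsEternalFamily (prism (corona H)) (k + k + Fintype.card V) F := by
    refine glue (prism (corona H)) e ?_ ?_ h2 h3
    · rintro (a | a) (b | b) h
      · exact SimpleGraph.boxProd_adj.mpr (Or.inl ⟨h, rfl⟩)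
      · exact absurd h (by simp)
      · exact absurd h (by simp)
      · exact SimpleGraph.boxProd_adj.mpr (Or.inl ⟨h, rfl⟩)
    · rintro ⟨a, i⟩ ⟨b, j⟩ h
      rcases SimpleGraph.boxProd_adj.mp h with ⟨h5, -⟩ | ⟨h5, h6⟩
      · exact absurd h5 (by simp)
      · have h6' : a = b := h6
        subst h6'
        exact SimpleGraph.boxProd_adj.mpr (Or.inr ⟨h5, rfl⟩)
  have hne : ∃ l, ∃ c : (V ⊕ V) × Fin 2 → Fin l,
      ∀ u v, c u = c v → u ≠ v → (prism (corona H)).Adj u v :=
    ⟨_, Fintype.equivFin _, fun u v h1 h2 => absurd ((Fintype.equivFin _).injective h1) h2⟩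
  have hlow : 2 * Fintype.card V ≤ cliqueCover (prism (corona H)) := by
    refine le_csInf hne ?_
    rintro l ⟨c, hc⟩
    have h := card_le_of_cover (prism_cliqueFree (corona_cliqueFree hH)) c hc
    rw [Fintype.card_prod, Fintype.card_sum, Fintype.card_fin] at h
    omega
  have hup : eternalDomination (prism (corona H)) ≤ k + k + Fintype.card V := Nat.sInf_le h4
  omega

/-- the graph of the starting files -/
theorem exists_graph : ∃ (V : Type) (_ : Fintype V) (_ : DecidableEq V) (H : SimpleGraph V),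
    H.CliqueFree 3 ∧ (∃ F, IsEternalFamily H 64 F) ∧ Fintype.card V = 129 := by
  classical
  refine ⟨(Fin 32 × Bool) ⊕ Option (Fin 32 × Bool), inferInstance, inferInstance,
    Pool.Agent.W145.ED.gr Pool.Agent.W145.ED.cval, Pool.Agent.W145.ED.gr_cliqueFree,
    ⟨Pool.Agent.W145.ED.fam Pool.Agent.W145.ED.cval, .of
      (Pool.Agent.W145.ED.fam_nonempty Pool.Agent.W145.ED.code_cval)
      (Pool.Agent.W145.ED.fam_card Pool.Agent.W145.ED.code_cval) ?_⟩, by simp⟩
  intro D hD v hv
  obtain ⟨u, hu, h1, h2⟩ := Pool.Agent.W145.ED.fam_closed Pool.Agent.W145.ED.code_cval D hD v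
  rcases h1 with rfl | h1
  · exact absurd hu hv
  · exact ⟨u, hu, h1, h2⟩

end Pool.Agent.Q64.EP
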